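import Pool.Agent.N343.TC.Stm

/-! A convexity criterion for conformal images. -/

set_option autoImplicit false

open MeasureTheory Set Filter Topology Metric Complex
open scoped ContDiff RealInnerProductSpace ComplexConjugate

namespace Pool.Agent.N564.TC

open Pool.Agent.N343.TC

theorem main (hI : S_INV) : S_CONV := by
  intro f r K hf hD hK hKo h1K hKr
  obtain ⟨hr, hfd, hfi, hf0⟩ := hf
  obtain ⟨hU, g, hg, hgw⟩ := hI f r ⟨hr, hfd, hfi, hf0⟩
  set U := f '' ball 0 r with hUdef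
  -- derivatives of the inverse
  have hg1 : ∀ z ∈ U, HasDerivAt g (deriv g z) z := fun z hz =>
    (hg.differentiableAt (hU.mem_nhds hz)).hasDerivAt
  have hgball : ∀ z ∈ U, g z ∈ ball (0 : ℂ) r ∧ f (g z) = z ∧ deriv g z = (deriv f (g z))⁻¹ := by
    rintro z ⟨w, hw, rfl⟩
    rw [(hgw w hw).1]
    exact ⟨hw, rfl, (hgw w hw).2⟩
  have hf2 : ∀ w ∈ ball (0 : ℂ) r, HasDerivAt (deriv f) (deriv (deriv f) w) w := by
    intro w hw
    have h1 : DifferentiableOn ℂ (deriv f) (ball 0 r) := hfd.deriv isOpen_ball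
    exact (h1.differentiableAt (isOpen_ball.mem_nhds hw)).hasDerivAt
  have hg2 : ∀ z ∈ U, HasDerivAt (deriv g)
      (-(deriv (deriv f) (g z) * deriv g z) / (deriv f (g z)) ^ 2) z := by
    intro z hz
    obtain ⟨h1, h2, h3⟩ := hgball z hz
    have h4 : HasDerivAt (fun y => (deriv f (g y))⁻¹)
        (-(deriv (deriv f) (g z) * deriv g z) / (deriv f (g z)) ^ 2) z :=
      ((hf2 _ h1).comp z (hg1 z hz)).inv (hf0 _ h1)
    refine h4.congr_of_eventuallyEq ?_
    filter_upwards [hU.mem_nhds hz] with y hy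
    exact (hgball y hy).2.2
  -- the segment
  rw [convex_iff_segment_subset]
  intro z₀ hz₀ z₁ hz₁
  rw [segment_eq_image']
  rintro _ ⟨t, ht, rfl⟩
  set v := z₁ - z₀ with hv
  let z : ℝ → ℂ := fun t => z₀ + (t : ℂ) * v
  have hzK : ∀ t ∈ Icc (0 : ℝ) 1, z t ∈ U := by
    intro t ht
    apply hKr
    have := hK.segment_subset (h1K hz₀) (h1K hz₁)
    apply this
    rw [segment_eq_image']
    exact ⟨t, ht, by simp [z, hv]⟩
  have hzd : ∀ t : ℝ, HasDerivAt z v t := by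
    intro t
    have h1 : HasDerivAt (fun t : ℝ => (t : ℂ)) 1 t := Complex.ofRealCLM.hasDerivAt
    have h2 := (h1.mul_const v).const_add z₀
    rwa [one_mul] at h2
  let h : ℝ → ℂ := fun t => g (z t)
  let h' : ℝ → ℂ := fun t => v * deriv g (z t)
  let h'' : ℝ → ℂ := fun t => v * (v *
    (-(deriv (deriv f) (g (z t)) * deriv g (z t)) / (deriv f (g (z t))) ^ 2))
  have hh : ∀ t ∈ Icc (0 : ℝ) 1, HasDerivAt h (h' t) t := fun t ht =>
    (hg1 _ (hzK t ht)).scomp t (hzd t)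
  have hh' : ∀ t ∈ Icc (0 : ℝ) 1, HasDerivAt h' (h'' t) t := fun t ht =>
    ((hg2 _ (hzK t ht)).scomp t (hzd t)).const_mul v
  have hF : ∀ t ∈ Icc (0 : ℝ) 1, HasDerivAt (fun s => inner ℝ (h s) (h s))
      (inner ℝ (h t) (h' t) + inner ℝ (h' t) (h t)) t := fun t ht => (hh t ht).inner ℝ (hh t ht)
  have hF' : ∀ t ∈ Icc (0 : ℝ) 1, HasDerivAt (fun s => inner ℝ (h s) (h' s) + inner ℝ (h' s) (h s))
      ((inner ℝ (h t) (h'' t) + inner ℝ (h' t) (h' t)) + (inner ℝ (h' t) (h' t) + inner ℝ (h'' t) (h t))) t := fun t ht =>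
    ((hh t ht).inner ℝ (hh' t ht)).add ((hh' t ht).inner ℝ (hh t ht))
  have hpos : ∀ t ∈ Icc (0 : ℝ) 1,
      0 ≤ (inner ℝ (h t) (h'' t) + inner ℝ (h' t) (h' t)) + (inner ℝ (h' t) (h' t) + inner ℝ (h'' t) (h t)) := by
    intro t ht
    obtain ⟨h1, h2, h3⟩ := hgball _ (hzK t ht)
    have h4 := hD _ h1
    have h5 : 0 < ‖deriv f (g (z t))‖ := norm_pos_iff.mpr (hf0 _ h1)
    have h6 : ‖h t‖ * ‖h'' t‖ ≤ ‖h' t‖ ^ 2 := by
      simp only [h, h', h'']
      rw [h3, norm_mul, norm_mul, norm_mul, norm_div, norm_neg, norm_mul, norm_pow, norm_inv]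
      rw [norm_mul] at h4
      have e1 : ‖g (z t)‖ * (‖v‖ * (‖v‖ * (‖deriv (deriv f) (g (z t))‖ *
          ‖deriv f (g (z t))‖⁻¹ / ‖deriv f (g (z t))‖ ^ 2))) =
          ‖v‖ ^ 2 * (‖deriv f (g (z t))‖⁻¹) ^ 2 *
          ((‖g (z t)‖ * ‖deriv (deriv f) (g (z t))‖) * ‖deriv f (g (z t))‖⁻¹) := by
        field_simp
      rw [e1, mul_pow]
      apply mul_le_of_le_one_right (by positivity)
      rw [← div_eq_mul_inv, div_le_one h5]
      exact h4
    have h7 : |inner ℝ (h t) (h'' t)| ≤ ‖h t‖ * ‖h'' t‖ := abs_real_inner_le_norm _ _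
    have h8 : inner ℝ (h'' t) (h t) = inner ℝ (h t) (h'' t) := real_inner_comm _ _
    have h9 : inner ℝ (h' t) (h' t) = ‖h' t‖ ^ 2 := real_inner_self_eq_norm_sq _
    rw [h8, h9]
    have h10 := (abs_le.mp (h7.trans h6)).1
    linarith
  have hconv : ConvexOn ℝ (Icc (0 : ℝ) 1) (fun s => inner ℝ (h s) (h s)) := by
    apply convexOn_of_hasDerivWithinAt2_nonneg (convex_Icc 0 1)
      (fun t ht => (hF t ht).continuousAt.continuousWithinAt)
      (fun t ht => (hF t (interior_subset ht)).hasDerivWithinAt)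
      (fun t ht => (hF' t (interior_subset ht)).hasDerivWithinAt)
      (fun t ht => hpos t (interior_subset ht))
  have hmax := hconv.le_max_of_mem_Icc (left_mem_Icc.mpr zero_le_one)
    (right_mem_Icc.mpr zero_le_one) ht
  have hend : ∀ y ∈ f '' ball 0 1, ‖g y‖ ^ 2 < 1 := by
    rintro _ ⟨w, hw, rfl⟩
    have hw' : w ∈ ball (0 : ℂ) r := ball_subset_ball hr.le hw
    rw [(hgw w hw').1]
    rw [mem_ball_zero_iff] at hw
    exact pow_lt_one₀ (norm_nonneg _) hw two_ne_zero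
  have hlt : ‖h t‖ ^ 2 < 1 := by
    rw [real_inner_self_eq_norm_sq, real_inner_self_eq_norm_sq, real_inner_self_eq_norm_sq] at hmax
    refine lt_of_le_of_lt hmax (max_lt ?_ ?_)
    · have e0 : z 0 = z₀ := by simp [z]
      simp only [h, e0]
      exact hend _ hz₀
    · have e0 : z 1 = z₁ := by simp [z, hv]
      simp only [h, e0]
      exact hend _ hz₁
  obtain ⟨h1, h2, -⟩ := hgball _ (hzK t ht)
  refine ⟨g (z t), ?_, ?_⟩
  · rw [mem_ball_zero_iff]
    have h3 : ‖g (z t)‖ ^ 2 < 1 ^ 2 := by rw [one_pow]; exact hlt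
    exact lt_of_pow_lt_pow_left₀ 2 zero_le_one h3
  · rw [h2]
    simp [z]

end Pool.Agent.N564.TC
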